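import Mathlib
import Pool.Agent.Helper55.LF.Forcing
import Pool.Agent.Helper55.LF.Final

/-! Connectivity-forcing depends on the generating set (negative answer to Q1). -/

namespace Pool.Agent.Results.MP_f7aca4_co.GenSetDependence

open Filter Topology Pool.Agent.Helper55.LF

/-- There are an infinite, finitely generated, residually finite group `Γ` and two finite symmetric
generating sets `S₁`, `S₂` not containing the identity such that the pair `(Cay(Γ, S₁), r)` is
connectivity-forcing for all sufficiently large `r`, while `(Cay(Γ, S₂), r)` is not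
connectivity-forcing for infinitely many `r`. -/
theorem result : ∃ (Γ : Type) (_ : Group Γ) (S₁ S₂ : Finset Γ),
    Infinite Γ ∧ ResFin Γ ∧
    (∀ s ∈ S₁, s⁻¹ ∈ S₁) ∧ (1 : Γ) ∉ S₁ ∧ Subgroup.closure (S₁ : Set Γ) = ⊤ ∧
    (∀ s ∈ S₂, s⁻¹ ∈ S₂) ∧ (1 : Γ) ∉ S₂ ∧ Subgroup.closure (S₂ : Set Γ) = ⊤ ∧
    (∀ᶠ r in atTop, ConnForcing (cay (S₁ : Set Γ)) 1 r) ∧
    (∃ᶠ r in atTop, ¬ ConnForcing (cay (S₂ : Set Γ)) 1 r) :=
  main_result

end Pool.Agent.Results.MP_f7aca4_co.GenSetDependence
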